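import Pool.Agent.L7h47.BW.Zsb

set_option autoImplicit false

/-!
# Project BW (helper88): exponential sums with characters (S_CHR)
-/

namespace Pool.Agent.L7h47.BW

open Finset
open Pool.Agent.Q236.CR
open Pool.Agent.H469R2.NK (e)

theorem std_e (q : ℕ) [NeZero q] (j : ZMod q) (n : ℕ) :
    ZMod.stdAddChar (j * (n : ZMod q)) = e (((j.val : ℝ) / q) * n) := by
  have h1 : j * (n : ZMod q) = (((j.val * n : ℕ) : ℤ) : ZMod q) := by
    push_cast
    rw [ZMod.natCast_zmod_val]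
  rw [h1, ZMod.stdAddChar_coe]
  unfold Pool.Agent.H469R2.NK.e
  congr 1
  push_cast
  ring

/-- the finite Fourier expansion of a function on `ℤ/q` -/
theorem expand (q : ℕ) [NeZero q] (f : ZMod q → ℂ) (n : ℕ) :
    f (n : ZMod q) = ∑ j : ZMod q, ((q : ℂ)⁻¹ * ZMod.dft f j) * e (((j.val : ℝ) / q) * n) := by
  have h1 := ZMod.invDFT_apply (ZMod.dft f) (n : ZMod q)
  rw [LinearEquiv.symm_apply_apply] at h1
  rw [h1, smul_eq_mul, Finset.mul_sum]
  refine Finset.sum_congr rfl fun j _ => ?_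
  rw [std_e, smul_eq_mul]
  ring

theorem coef_le (q : ℕ) [NeZero q] (f : ZMod q → ℂ) (hf : ∀ a, ‖f a‖ ≤ 1) (j : ZMod q) :
    ‖(q : ℂ)⁻¹ * ZMod.dft f j‖ ≤ 1 := by
  have hq : (0 : ℝ) < q := by exact_mod_cast Nat.pos_of_ne_zero (NeZero.ne q)
  rw [norm_mul, norm_inv, Complex.norm_natCast, ZMod.dft_apply]
  have h1 : ‖∑ i : ZMod q, ZMod.stdAddChar (-(i * j)) • f i‖ ≤ ∑ _i : ZMod q, (1 : ℝ) := by
    refine (norm_sum_le _ _).trans (Finset.sum_le_sum fun i _ => ?_)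
    rw [norm_smul, AddChar.norm_apply, one_mul]
    exact hf i
  rw [Finset.sum_const, Finset.card_univ, ZMod.card, nsmul_eq_mul, mul_one] at h1
  calc (q : ℝ)⁻¹ * _ ≤ (q : ℝ)⁻¹ * q := by gcongr
    _ = 1 := inv_mul_cancel₀ hq.ne'

theorem char_sum (q : ℕ) [NeZero q] (f : ZMod q → ℂ) (hf : ∀ a, ‖f a‖ ≤ 1) (N N' : ℕ) (t B : ℝ)
    (hB : ∀ β : ℝ, ‖∑ n ∈ Finset.Ioc N N', e (β * n) * nt t n‖ ≤ B) :
    ‖∑ n ∈ Finset.Ioc N N', f (n : ZMod q) * nt t n‖ ≤ q * B := by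
  have h1 : ∑ n ∈ Finset.Ioc N N', f (n : ZMod q) * nt t n =
      ∑ j : ZMod q, ((q : ℂ)⁻¹ * ZMod.dft f j) *
        ∑ n ∈ Finset.Ioc N N', e (((j.val : ℝ) / q) * n) * nt t n := by
    simp_rw [Finset.mul_sum]
    rw [Finset.sum_comm]
    refine Finset.sum_congr rfl fun n _ => ?_
    conv_lhs => rw [expand q f n]
    rw [Finset.sum_mul]
    refine Finset.sum_congr rfl fun j _ => ?_
    ring
  rw [h1]
  refine (norm_sum_le _ _).trans ?_
  have h2 : ∀ j ∈ (Finset.univ : Finset (ZMod q)), ‖((q : ℂ)⁻¹ * ZMod.dft f j) *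
        ∑ n ∈ Finset.Ioc N N', e (((j.val : ℝ) / q) * n) * nt t n‖ ≤ B := by
    intro j _
    rw [norm_mul]
    calc _ ≤ 1 * B := mul_le_mul (coef_le q f hf j) (hB _) (norm_nonneg _) zero_le_one
      _ = B := one_mul B
  refine (Finset.sum_le_sum h2).trans ?_
  rw [Finset.sum_const, Finset.card_univ, ZMod.card, nsmul_eq_mul]

theorem s_CHR : S_CHR := by
  refine ⟨?_, ?_⟩
  · obtain ⟨C, c, hc0, hc1, h⟩ := s_ZSB
    refine ⟨C, c, hc0, hc1, fun q hq χ N N' t κ hN hNN hN2 hκ ht => ?_⟩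
    have := hq
    exact char_sum q (fun a => χ a) (fun a => χ.norm_le_one a) N N' t _
      (fun β => h N N' t κ β hN hNN hN2 hκ ht)
  · obtain ⟨C, hC, h⟩ := Pool.Agent.Q53.CR.sdb
    refine ⟨C, hC, fun q hq χ N N' t hN hNN hN2 ht => ?_⟩
    have := hq
    exact char_sum q (fun a => χ a) (fun a => χ.norm_le_one a) N N' t _
      (fun β => h N N' t β hN hNN hN2 ht)

end Pool.Agent.L7h47.BW
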