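import Pool.Agent.L7h76.BW.Px
import Pool.Agent.Q298.KS.Sb2

set_option autoImplicit false

/-!
# Project BW (helper88): SMB and SMC, smooth factors with a character
-/

namespace Pool.Agent.L7h47.BW

open Finset
open Pool.Agent.H376R2.MR (ch DP FK w)
open Pool.Agent.Q240.KS (cf sp)
open Pool.Agent.Q298.KS
open Pool.Agent.L7h88.BW (PX S_SMB S_SMC)
open Pool.Agent.L7h76.BW (PX_eq PX_le_of_part)
open Pool.Agent.Q236.CR (nt S_CHR)

/-- the norm of a partial sum of a bounded character sum -/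
theorem chi_ch_le {q : ℕ} (χ : DirichletCharacter ℂ q) (k : ℤ) (n : ℕ) :
    ‖χ (n : ZMod q) * ch k (Real.log n)‖ ≤ 1 := by
  rw [norm_mul, norm_ch, mul_one]
  exact χ.norm_le_one _

theorem part_of {q : ℕ} (χ : DirichletCharacter ℂ q) (d : ℕ) (k : ℤ) (B : ℝ) (hB0 : 0 ≤ B)
    (h : ∀ N', lo d ≤ N' → N' ≤ 2 * lo d → ‖∑ n ∈ Ioc (lo d) N', χ (n : ZMod q) * nt (k : ℝ) n‖ ≤ B) :
    ∀ m, lo d ≤ m → m ≤ hi d → ‖∑ n ∈ Ico (lo d) m, χ (n : ZMod q) * ch k (Real.log n)‖ ≤ 1 + B := by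
  intro m hm1 hm2
  rcases Nat.eq_or_lt_of_le hm1 with hm | hm
  · rw [← hm, Ico_self, sum_empty, norm_zero]
    linarith
  · obtain ⟨N', h1, h2, h3⟩ := window_split d m (fun n => χ (n : ZMod q) * ch k (Real.log n)) hm hm2
    rw [h3]
    have h4 := h N' h1 h2
    have h5 : ∑ n ∈ Ioc (lo d) N', χ (n : ZMod q) * nt (k : ℝ) n =
        ∑ n ∈ Ioc (lo d) N', χ (n : ZMod q) * ch k (Real.log n) := by
      refine sum_congr rfl fun n hn => ?_
      rw [mem_Ioc] at hn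
      rw [nt_ch k n (by have := one_le_lo d; omega)]
    rw [h5] at h4
    refine (norm_add_le _ _).trans ?_
    exact add_le_add (chi_ch_le χ k _) h4

theorem s_SMB (hc : S_CHR) : S_SMB := by
  obtain ⟨C, hC, h⟩ := hc.2
  refine ⟨500 * C, by linarith, ?_⟩
  intro q hq χ z t d k ht hk
  have hq1 : (1 : ℝ) ≤ q := by exact_mod_cast Nat.one_le_iff_ne_zero.2 (NeZero.ne q)
  have hd : (0 : ℝ) ≤ d := Nat.cast_nonneg d
  have hk1 : (1 : ℝ) ≤ |(k : ℝ)| := by
    rw [← Int.cast_abs]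
    exact_mod_cast Int.one_le_abs hk
  have hs1 : 1 ≤ √|(k : ℝ)| := by
    rw [← Real.sqrt_one]
    exact Real.sqrt_le_sqrt hk1
  have hs0 : 0 < √|(k : ℝ)| := by linarith
  have hlo0 : (0 : ℝ) < lo d := by exact_mod_cast one_le_lo d
  have hlo1 : (1 : ℝ) ≤ lo d := by exact_mod_cast one_le_lo d
  have hll := log_lo_le d
  have hll0 : 0 ≤ Real.log (lo d) := Real.log_natCast_nonneg _
  obtain ⟨E, hE⟩ : ∃ E : ℝ, E = Real.exp ((d : ℝ) / 20) := ⟨_, rfl⟩
  have hE0 : 0 < E := by rw [hE]; exact Real.exp_pos _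
  have hlE := lo_le_exp d
  rw [← hE] at hlE
  obtain ⟨s, hs⟩ : ∃ s : ℝ, s = √|(k : ℝ)| := ⟨_, rfl⟩
  rw [← hs] at hs1 hs0
  have hpart := part_of χ d k (q * (C * (s + (lo d : ℝ) / s) * (1 + Real.log (lo d))))
    (by positivity) (fun N' h1 h2 => by
      have := h q hq χ (lo d) N' (k : ℝ) (one_le_lo d) h1 h2 hk1
      rwa [← hs] at this)
  have h6 : q * (C * (s + (lo d : ℝ) / s) * (1 + Real.log (lo d))) ≤
      q * (C * (s + (2 * E) / s) * (1 + (1 + d))) := by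
    gcongr
  have h7 : C * (s + (2 * E) / s) * (1 + (1 + d)) ≤ 4 * C * (1 + d) * (s + E / s) := by
    have h8 : s + (2 * E) / s ≤ 2 * (s + E / s) := by
      have : (2 * E) / s = 2 * (E / s) := by ring
      rw [this]
      linarith
    have h9 : (1 : ℝ) + (1 + d) ≤ 2 * (1 + d) := by linarith
    calc C * (s + (2 * E) / s) * (1 + (1 + d)) ≤ C * (2 * (s + E / s)) * (2 * (1 + d)) := by gcongr
      _ = _ := by ring
  have h10 : 1 ≤ C * (1 + d) * (s + E / s) := by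
    have h11 : 1 ≤ s + E / s := by
      have : 0 ≤ E / s := by positivity
      linarith
    have h12 : 1 ≤ C * (1 + (d : ℝ)) := by nlinarith
    nlinarith
  obtain ⟨X, hX⟩ : ∃ X : ℝ, X = C * (1 + d) * (s + E / s) := ⟨_, rfl⟩
  have h7' : C * (s + (2 * E) / s) * (1 + (1 + d)) ≤ 4 * X := by
    rw [hX]
    linarith
  have h13 : 1 + q * (C * (s + (lo d : ℝ) / s) * (1 + Real.log (lo d))) ≤ q * (5 * X) := by
    have a1 : (q : ℝ) * (C * (s + (2 * E) / s) * (1 + (1 + d))) ≤ q * (4 * X) := by gcongr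
    have a2 : 1 ≤ (q : ℝ) * X := by
      rw [← hX] at h10
      nlinarith
    nlinarith
  have hX0 : 0 ≤ X := by rw [hX]; positivity
  have h1 := PX_le_of_part χ z t d k (q * (5 * X)) (by positivity) ht
    (fun m a b => (hpart m a b).trans h13)
  refine h1.trans (le_of_eq ?_)
  have h2 : |(k : ℝ)| ^ (1 / 2 : ℝ) = s := by rw [hs, Real.sqrt_eq_rpow]
  have h3 : |(k : ℝ)| ^ (-(1 / 2) : ℝ) = 1 / s := by
    rw [Real.rpow_neg (abs_nonneg _), h2, inv_eq_one_div]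
  have h4 : Real.exp (-((d : ℝ) / 20)) = 1 / E := by
    rw [Real.exp_neg, hE, one_div]
  rw [h2, h3, h4, hX]
  field_simp
  ring

/-- the trivial bound -/
theorem PX_triv {q : ℕ} (χ : DirichletCharacter ℂ q) (z : ℕ) (t : Fin 3) (d : ℕ) (k : ℤ) (ht : t ≠ 0) :
    ‖PX χ z t d k‖ ≤ 400 * (1 + (d : ℝ)) := by
  obtain ⟨E, hE⟩ : ∃ E : ℝ, E = Real.exp ((d : ℝ) / 20) := ⟨_, rfl⟩
  have hE0 : 0 < E := by rw [hE]; exact Real.exp_pos _
  have hlE := lo_le_exp d
  rw [← hE] at hlE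
  have hlo1 : (1 : ℝ) ≤ lo d := by exact_mod_cast one_le_lo d
  have h1 := PX_le_of_part χ z t d k (4 * E) (by positivity) ht (fun m hm1 hm2 => by
    have a1 : ‖∑ n ∈ Ico (lo d) m, χ (n : ZMod q) * ch k (Real.log n)‖ ≤ ∑ _n ∈ Ico (lo d) m, (1 : ℝ) :=
      (norm_sum_le _ _).trans (Finset.sum_le_sum fun n _ => chi_ch_le χ k n)
    rw [Finset.sum_const, Nat.card_Ico, nsmul_eq_mul, mul_one] at a1
    have a2 : m - lo d ≤ lo d + 1 := by
      rcases Nat.eq_zero_or_pos m with h | h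
      · omega
      · have := le_two_lo (d := d) (n := m - 1) (by omega)
        omega
    have a3 : ((m - lo d : ℕ) : ℝ) ≤ lo d + 1 := by exact_mod_cast a2
    linarith)
  refine h1.trans (le_of_eq ?_)
  have h4 : Real.exp (-((d : ℝ) / 20)) = 1 / E := by
    rw [Real.exp_neg, hE, one_div]
  rw [h4]
  field_simp
  ring

end Pool.Agent.L7h47.BW
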