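import Pool.Agent.L7h47.BW.Smb

set_option autoImplicit false

/-!
# Project BW (helper88): SMC, smooth factors with a character at all polynomial heights
-/

namespace Pool.Agent.L7h47.BW

open Finset
open Pool.Agent.H376R2.MR (ch DP FK w)
open Pool.Agent.Q240.KS (cf sp)
open Pool.Agent.Q298.KS
open Pool.Agent.L7h88.BW (PX S_SMB S_SMC)
open Pool.Agent.L7h76.BW (PX_eq PX_le_of_part)
open Pool.Agent.Q236.CR (nt S_CHR)

theorem s_SMC (hc : S_CHR) (hb : S_SMB) : S_SMC := by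
  intro M
  obtain ⟨C, c, hc0, hc1, hA⟩ := hc.1
  obtain ⟨C₂, hC₂, hB⟩ := hb
  obtain ⟨η, hη⟩ : ∃ η : ℝ, η = c / (1 + 2 * (M : ℝ)) ^ 2 := ⟨_, rfl⟩
  obtain ⟨C₁, hC₁⟩ : ∃ C₁ : ℝ, C₁ = Real.exp (C * (1 + 2 * (M : ℝ)) ^ C) := ⟨_, rfl⟩
  have hM0 : (0 : ℝ) ≤ M := Nat.cast_nonneg M
  have hη0 : 0 < η := by rw [hη]; positivity
  have hη1 : η ≤ 1 / 10 := by
    rw [hη]
    refine le_trans (div_le_self hc0.le ?_) hc1
    exact one_le_pow₀ (by linarith)
  have hC₁1 : 1 ≤ C₁ := by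
    rw [hC₁]
    exact Real.one_le_exp (by positivity)
  refine ⟨800 + 2 * C₂ + 300 * C₁, η, by linarith, hη0, by linarith, ?_⟩
  intro q hq χ z t d k ht hk hkM
  have hq1 : (1 : ℝ) ≤ q := by exact_mod_cast Nat.one_le_iff_ne_zero.2 (NeZero.ne q)
  have hd : (0 : ℝ) ≤ d := Nat.cast_nonneg d
  have hk1 : (1 : ℝ) ≤ |(k : ℝ)| := by
    rw [← Int.cast_abs]
    exact_mod_cast Int.one_le_abs hk
  obtain ⟨E, hE⟩ : ∃ E : ℝ, E = Real.exp ((d : ℝ) / 20) := ⟨_, rfl⟩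
  have hE0 : 0 < E := by rw [hE]; exact Real.exp_pos _
  have hE1 : 1 ≤ E := by rw [hE]; exact Real.one_le_exp (by positivity)
  have hlE := lo_le_exp d
  rw [← hE] at hlE
  have hlo1 : (1 : ℝ) ≤ lo d := by exact_mod_cast one_le_lo d
  have hη' : Real.exp (-(η * d / 20)) = E ^ (-η) := by
    rw [hE, ← Real.exp_mul]
    congr 1
    ring
  have hkp : 0 ≤ |(k : ℝ)| ^ (-(1 / 2) : ℝ) := Real.rpow_nonneg (abs_nonneg _) _
  have hEη : 0 < E ^ (-η) := Real.rpow_pos_of_pos hE0 _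
  have h1d : (1 : ℝ) ≤ 1 + d := by linarith
  rw [hη']
  rcases Nat.lt_or_ge d 2 with hd2 | hd2
  · -- the trivial bound
    have h1 := PX_triv χ z t d k ht
    have h2 : (1 : ℝ) / 2 ≤ E ^ (-η) := by
      rw [← hη']
      have h3 : (-(1 / 200) : ℝ) ≤ -(η * d / 20) := by
        have : (d : ℝ) ≤ 1 := by exact_mod_cast (by omega : d ≤ 1)
        nlinarith
      have h4 := Real.add_one_le_exp (-(η * d / 20))
      linarith
    have h3 : (1 : ℝ) + d ≤ (1 + d) ^ 2 := by nlinarith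
    calc ‖PX χ z t d k‖ ≤ 400 * (1 + (d : ℝ)) := h1
      _ ≤ 800 * 1 * (1 + (d : ℝ)) ^ 2 * (0 + 1 / 2) := by linarith
      _ ≤ (800 + 2 * C₂ + 300 * C₁) * q * (1 + (d : ℝ)) ^ 2 * (|(k : ℝ)| ^ (-(1 / 2) : ℝ) + E ^ (-η)) := by
        gcongr
        linarith
  rcases le_or_gt |(k : ℝ)| (lo d) with hk2 | hk2
  · have h1 := hB q hq χ z t d k ht hk
    have h4 : Real.exp (-((d : ℝ) / 20)) = 1 / E := by
      rw [Real.exp_neg, hE, one_div]
    rw [h4] at h1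
    have h5 : |(k : ℝ)| ^ (1 / 2 : ℝ) * (1 / E) ≤ 2 * E ^ (-η) := by
      have a1 : |(k : ℝ)| ^ (1 / 2 : ℝ) ≤ 2 * E ^ (1 / 2 : ℝ) := by
        calc |(k : ℝ)| ^ (1 / 2 : ℝ) ≤ (2 * E) ^ (1 / 2 : ℝ) :=
              Real.rpow_le_rpow (abs_nonneg _) (hk2.trans hlE) (by norm_num)
          _ = 2 ^ (1 / 2 : ℝ) * E ^ (1 / 2 : ℝ) := Real.mul_rpow (by norm_num) hE0.le
          _ ≤ 2 * E ^ (1 / 2 : ℝ) := by
            have : (2 : ℝ) ^ (1 / 2 : ℝ) ≤ 2 ^ (1 : ℝ) :=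
              Real.rpow_le_rpow_of_exponent_le (by norm_num) (by norm_num)
            rw [Real.rpow_one] at this
            gcongr
      calc |(k : ℝ)| ^ (1 / 2 : ℝ) * (1 / E) ≤ 2 * E ^ (1 / 2 : ℝ) * (1 / E) := by gcongr
        _ = 2 * E ^ (-(1 / 2) : ℝ) := by
          have : E ^ (-(1 / 2) : ℝ) = E ^ (1 / 2 : ℝ) * (1 / E) := by
            have e1 : (1 / E) = E ^ (-1 : ℝ) := by rw [Real.rpow_neg_one, one_div]
            rw [e1, ← Real.rpow_add hE0]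
            norm_num
          rw [this]
          ring
        _ ≤ 2 * E ^ (-η) := by
          gcongr
          linarith
    have h0 : 0 ≤ |(k : ℝ)| ^ (1 / 2 : ℝ) * (1 / E) := by positivity
    calc ‖PX χ z t d k‖ ≤ C₂ * q * (1 + (d : ℝ)) ^ 2 *
          (|(k : ℝ)| ^ (1 / 2 : ℝ) * (1 / E) + |(k : ℝ)| ^ (-(1 / 2) : ℝ)) := h1
      _ ≤ C₂ * q * (1 + (d : ℝ)) ^ 2 * (2 * (|(k : ℝ)| ^ (-(1 / 2) : ℝ) + E ^ (-η))) := by
        gcongr
        linarith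
      _ = (2 * C₂) * q * (1 + (d : ℝ)) ^ 2 * (|(k : ℝ)| ^ (-(1 / 2) : ℝ) + E ^ (-η)) := by ring
      _ ≤ (800 + 2 * C₂ + 300 * C₁) * q * (1 + (d : ℝ)) ^ 2 * (|(k : ℝ)| ^ (-(1 / 2) : ℝ) + E ^ (-η)) := by
        gcongr
        linarith
  · -- the first part of CHR
    have hd2' : (2 : ℝ) ≤ d := by exact_mod_cast hd2
    have hlo2 : 2 ≤ lo d := by
      have a1 : (1 : ℝ) < lo d := by
        refine lt_of_lt_of_le ?_ (le_lo d)
        rw [Real.one_lt_exp_iff]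
        linarith
      have : 1 < lo d := by exact_mod_cast a1
      omega
    have hlo2' : (2 : ℝ) ≤ lo d := by exact_mod_cast hlo2
    have hllo : 0 < Real.log (lo d) := Real.log_pos (by linarith)
    obtain ⟨κ, hκ⟩ : ∃ κ : ℝ, κ = Real.log |(k : ℝ)| / Real.log (lo d) := ⟨_, rfl⟩
    have hκ1 : 1 ≤ κ := by
      rw [hκ, one_le_div hllo]
      exact Real.log_le_log (by linarith) hk2.le
    have hlk : Real.log |(k : ℝ)| ≤ M * d / 20 := by
      rw [Real.log_le_iff_le_exp (by linarith)]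
      exact hkM
    have hll : ((d : ℝ) - 1) / 20 ≤ Real.log (lo d) := by
      rw [Real.le_log_iff_exp_le (by linarith)]
      exact le_lo d
    have hκ2 : κ ≤ 2 * M := by
      rw [hκ, div_le_iff₀ hllo]
      have a1 : (2 * (M : ℝ)) * (((d : ℝ) - 1) / 20) ≤ 2 * M * Real.log (lo d) := by gcongr
      have a2 : (M : ℝ) * d / 20 ≤ 2 * M * (((d : ℝ) - 1) / 20) := by nlinarith
      linarith
    have hkκ : |(k : ℝ)| = (lo d : ℝ) ^ κ := by
      rw [Real.rpow_def_of_pos (by linarith), hκ, mul_div_cancel₀ _ hllo.ne', Real.exp_log (by linarith)]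
    have hη2 : η ≤ c / (1 + κ) ^ 2 := by
      rw [hη]
      gcongr
    have hexp : Real.exp (C * (1 + κ) ^ C) ≤ C₁ := by
      rw [hC₁]
      gcongr
    have hpow : (lo d : ℝ) ^ (1 - c / (1 + κ) ^ 2 : ℝ) ≤ 2 * E ^ (1 - η) := by
      calc (lo d : ℝ) ^ (1 - c / (1 + κ) ^ 2 : ℝ) ≤ (lo d : ℝ) ^ (1 - η) :=
            Real.rpow_le_rpow_of_exponent_le hlo1 (by linarith)
        _ ≤ (2 * E) ^ (1 - η) := Real.rpow_le_rpow (by linarith) hlE (by linarith)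
        _ = 2 ^ (1 - η) * E ^ (1 - η) := Real.mul_rpow (by norm_num) hE0.le
        _ ≤ 2 * E ^ (1 - η) := by
          have : (2 : ℝ) ^ (1 - η) ≤ 2 ^ (1 : ℝ) :=
            Real.rpow_le_rpow_of_exponent_le (by norm_num) (by linarith)
          rw [Real.rpow_one] at this
          gcongr
    have hpart := part_of χ d k (q * (C₁ * (2 * E ^ (1 - η)))) (by positivity) (fun N' h1 h2 => by
      refine (hA q hq χ (lo d) N' (k : ℝ) κ hlo2 h1 h2 hκ1 hkκ).trans ?_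
      gcongr)
    have hE1η : 1 ≤ E ^ (1 - η) := Real.one_le_rpow hE1 (by linarith)
    have h3 : 1 + q * (C₁ * (2 * E ^ (1 - η))) ≤ q * (3 * C₁ * E ^ (1 - η)) := by
      have a1 : 1 ≤ (q : ℝ) * (C₁ * E ^ (1 - η)) := by
        have := mul_le_mul hC₁1 hE1η zero_le_one (by linarith)
        nlinarith
      linarith
    have h1 := PX_le_of_part χ z t d k (q * (3 * C₁ * E ^ (1 - η))) (by positivity) ht
      (fun m a b => (hpart m a b).trans h3)
    have h4 : Real.exp (-((d : ℝ) / 20)) = 1 / E := by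
      rw [Real.exp_neg, hE, one_div]
    have h5 : E ^ (1 - η) * (1 / E) = E ^ (-η) := by
      rw [one_div, ← Real.rpow_neg_one E, ← Real.rpow_add hE0]
      congr 1
      ring
    rw [h4] at h1
    calc ‖PX χ z t d k‖ ≤ 100 * (q * (3 * C₁ * E ^ (1 - η))) * (1 + d) * (1 / E) := h1
      _ = (300 * C₁) * q * (1 + d) * (0 + E ^ (1 - η) * (1 / E)) := by ring
      _ = (300 * C₁) * q * (1 + d) * (0 + E ^ (-η)) := by rw [h5]
      _ ≤ (800 + 2 * C₂ + 300 * C₁) * q * (1 + (d : ℝ)) ^ 2 * (|(k : ℝ)| ^ (-(1 / 2) : ℝ) + E ^ (-η)) := by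
        gcongr
        · linarith
        · nlinarith

end Pool.Agent.L7h47.BW
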